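import Pool.Agent.P.MP_756531_al.Local

set_option autoImplicit false

namespace Pool.Agent.Results.MP_756531_al.InfiniteClasses

open Pool.Agent.P.MP_756531_al

theorem result :
    ∃ (L : Type) (_ : Lattice L) (o t : L), Nat.card L = 265721 ∧ (∀ x, o ≤ x ∧ x ≤ t) ∧
      ∀ (A : Type) (φ : LatticeHom L (Setoid A)),
        (∀ (x y : L) (a b : A), (φ (x ⊔ y)).r a b ↔
          ∃ c d e : A, (φ x).r a c ∧ (φ y).r c d ∧ (φ x).r d e ∧ (φ y).r e b) →
        ∀ a b : A, (φ t).r a b → ¬ (φ o).r a b →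
          (Quotient.mk (φ o) '' {c | (φ t).r a c}).Infinite :=
  ⟨TL, inferInstance, bt, nd [], card_TL, fun x => ⟨bt_le x, le_nd_nil x⟩,
    fun _ φ h3 a b hab hn hfin =>
      hn (local_collapse φ (fun x y a b h => (h3 x y a b).1 h) a hfin b hab)⟩

end Pool.Agent.Results.MP_756531_al.InfiniteClasses
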